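import Mathlib
import Pool.Agent.W345.GK.TF

set_option autoImplicit false

/-!
# GK-TA1: principal minors (helper237)
-/

open Polynomial Finset Pool.Agent.W345.GK

namespace Pool.Agent.W237.GK

theorem ta1 : S_TA1 := by
  classical
  intro L _ q R M n
  rw [Matrix.coeff_det_one_add_X_smul_eq_sum_minors, Finset.mul_sum]
  symm
  have hmem : ∀ s : Fin n → Fin (M + 1), s ∈ St n M ↔ StrictAnti s := by
    intro s
    unfold St
    simp
  have hinj : ∀ s ∈ St n M, Function.Injective s := fun s hs => ((hmem s).mp hs).injective
  refine Finset.sum_bij (fun s _ => univ.image s) ?_ ?_ ?_ ?_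
  · intro s hs
    rw [Finset.mem_powersetCard]
    exact ⟨Finset.subset_univ _, by rw [Finset.card_image_of_injective _ (hinj s hs)]; simp⟩
  · intro s hs s' hs' he
    have hc : ∀ s ∈ St n M, (univ.image s).card = n := by
      intro s hs
      rw [Finset.card_image_of_injective _ (hinj s hs)]; simp
    have hu : ∀ s (hs : s ∈ St n M), s ∘ Fin.rev = (univ.image s).orderEmbOfFin (hc s hs) := by
      intro s hs
      apply Finset.orderEmbOfFin_unique
      · intro x; exact Finset.mem_image_of_mem _ (Finset.mem_univ _)
      · intro a b hab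
        exact ((hmem s).mp hs) (Fin.rev_lt_rev.mpr hab)
    have h1 := hu s hs
    have h2 := hu s' hs'
    have h3 : s ∘ Fin.rev = s' ∘ Fin.rev := by
      have key : ∀ (A B : Finset (Fin (M + 1))) (hA : A.card = n) (hB : B.card = n), A = B →
          (⇑(A.orderEmbOfFin hA) : Fin n → Fin (M + 1)) = ⇑(B.orderEmbOfFin hB) := by
        rintro A B hA hB rfl
        rfl
      rw [h1, h2]
      exact key _ _ _ _ he
    funext i
    have := congrFun h3 (Fin.rev i)
    simpa using this
  · intro t ht
    rw [Finset.mem_powersetCard] at ht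
    refine ⟨(t.orderEmbOfFin ht.2) ∘ Fin.rev, ?_, ?_⟩
    · rw [hmem]
      intro a b hab
      exact (t.orderEmbOfFin ht.2).strictMono (Fin.rev_lt_rev.mpr hab)
    · ext x
      simp only [Finset.mem_image, Finset.mem_univ, true_and, Function.comp]
      constructor
      · rintro ⟨a, rfl⟩
        exact Finset.orderEmbOfFin_mem _ _ _
      · intro hx
        have : x ∈ Set.range (t.orderEmbOfFin ht.2) := by
          rw [Finset.range_orderEmbOfFin]; exact hx
        obtain ⟨a, ha⟩ := this
        exact ⟨Fin.rev a, by simpa using ha⟩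
  · intro s hs
    have hb : Function.Bijective (fun i : Fin n =>
        (⟨s i, Finset.mem_image_of_mem _ (Finset.mem_univ _)⟩ : ↥(univ.image s))) := by
      constructor
      · intro a b hab
        simp only [Subtype.mk.injEq] at hab
        exact hinj s hs hab
      · rintro ⟨x, hx⟩
        rw [Finset.mem_image] at hx
        obtain ⟨a, _, ha⟩ := hx
        exact ⟨a, Subtype.ext ha⟩
    have h1 := Matrix.det_submatrix_equiv_self (Equiv.ofBijective _ hb)
      ((-(AA q M R)).submatrix (Subtype.val : ↥(univ.image s) → Fin (M + 1))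
        (Subtype.val : ↥(univ.image s) → Fin (M + 1)))
    rw [← h1]
    have h2 : (((-(AA q M R)).submatrix (Subtype.val : ↥(univ.image s) → Fin (M + 1))
        (Subtype.val : ↥(univ.image s) → Fin (M + 1))).submatrix
          (Equiv.ofBijective _ hb) (Equiv.ofBijective _ hb)) = -((AA q M R).submatrix s s) := by
      ext i j
      rfl
    rw [h2, Matrix.det_neg, Fintype.card_fin]

end Pool.Agent.W237.GK
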