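import Mathlib
import Pool.Agent.W345.GK.TF

set_option autoImplicit false

/-!
# GK-TA2: rules for the operator UM (helper237)
-/

open Polynomial Finset Pool.Agent.W345.GK

namespace Pool.Agent.W237.GK

lemma um_coeff {L : Type} [Field L] (q : ℕ) (hq : 0 < q) (n : ℕ)
    (f : MvPolynomial (Fin n) L) (t : Fin n →₀ ℕ) : (UM q f).coeff t = f.coeff (up q t) := by
  classical
  unfold UM
  rw [MvPolynomial.coeff_sum]
  have hup : ∀ i, (up q t) i = q * t i + (q - 1) := fun i => rfl
  rw [Finset.sum_eq_single (up q t)]
  · have h1 : ∀ i, (up q t) i % q = q - 1 := by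
      intro i
      rw [hup, Nat.mul_add_mod]
      exact Nat.mod_eq_of_lt (by omega)
    rw [if_pos h1, MvPolynomial.coeff_monomial, if_pos]
    ext i
    change (up q t) i / q = t i
    rw [hup, Nat.mul_add_div hq, Nat.div_eq_of_lt (by omega : q - 1 < q), add_zero]
  · intro s _ hs
    split_ifs with h
    · rw [MvPolynomial.coeff_monomial, if_neg]
      intro he
      apply hs
      ext i
      rw [hup]
      have h2 := DFunLike.congr_fun he i
      change s i / q = t i at h2
      rw [← h2, ← h i]
      exact (Nat.div_add_mod _ _).symm
    · exact MvPolynomial.coeff_zero _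
  · intro h
    have h0 : f.coeff (up q t) = 0 := by
      rwa [MvPolynomial.notMem_support_iff] at h
    rw [h0]
    split_ifs
    · rw [MvPolynomial.coeff_monomial]; split_ifs <;> rfl
    · exact MvPolynomial.coeff_zero _

theorem ta2 : S_TA2 := by
  classical
  intro L _ q hq n
  have hc := um_coeff (L := L) q hq n
  have hadd : ∀ f g : MvPolynomial (Fin n) L, UM q (f + g) = UM q f + UM q g := by
    intro f g
    ext t
    rw [MvPolynomial.coeff_add, hc, hc, hc, MvPolynomial.coeff_add]
  refine ⟨hc, hadd, ?_, ?_⟩
  · intro a f
    ext t
    rw [MvPolynomial.coeff_smul, hc, hc, MvPolynomial.coeff_smul]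
  · intro f g
    induction f using MvPolynomial.induction_on' with
    | monomial u a =>
      have he : MvPolynomial.expand q (MvPolynomial.monomial u a) = MvPolynomial.monomial (q • u) a := by
        rw [MvPolynomial.expand_monomial]
      ext t
      rw [he, hc, MvPolynomial.coeff_monomial_mul', MvPolynomial.coeff_monomial_mul', hc]
      have hiff : (q • u ≤ up q t) ↔ u ≤ t := by
        rw [Finsupp.le_def, Finsupp.le_def]
        apply forall_congr'
        intro i
        have hup : (up q t) i = q * t i + (q - 1) := rfl
        rw [hup, Finsupp.smul_apply, smul_eq_mul]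
        constructor
        · intro h
          by_contra hlt
          push Not at hlt
          have : q * (t i + 1) ≤ q * u i := Nat.mul_le_mul_left q hlt
          rw [mul_add, mul_one] at this
          omega
        · intro h
          have := Nat.mul_le_mul_left q h
          omega
      by_cases h : u ≤ t
      · rw [if_pos h, if_pos (hiff.mpr h)]
        congr 2
        ext i
        have h1 : (up q t) i = q * t i + (q - 1) := rfl
        have h2 : (up q (t - u)) i = q * (t i - u i) + (q - 1) := rfl
        rw [Finsupp.tsub_apply, h1, h2, Finsupp.smul_apply, smul_eq_mul, Nat.mul_sub]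
        have := Nat.mul_le_mul_left q (h i)
        omega
      · rw [if_neg h, if_neg (fun h' => h (hiff.mp h'))]
    | add f1 f2 h1 h2 =>
      rw [map_add, add_mul, hadd, h1, h2, add_mul]

end Pool.Agent.W237.GK
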